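import Pool.Agent.Helper74.CO.Goals2
import Pool.Agent.Helper40.CO.GAC

/-!
# Project CO (MP_c5396e_co), stage 2, packet CO-WAB-WAC
-/

set_option autoImplicit false

namespace Pool.Agent.Helper83.CO

open Finset Pool.Agent.Helper74.CO

/-- the set of the admissible `x` misses at most three points -/
theorem card_compl_Xw {F : Type} [Field F] [Fintype F] [DecidableEq F] (e v : F) :
    #(Xw e v)ᶜ ≤ 5 := by
  have h : (Xw e v)ᶜ ⊆ {0, v, e} := by
    intro x hx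
    unfold Xw at hx
    rw [mem_compl, mem_filter] at hx
    simp only [mem_univ, true_and, not_and_or, not_not, ne_eq] at hx
    simp only [mem_insert, mem_singleton]
    exact hx
  exact ((card_le_card h).trans card_le_three).trans (by norm_num)

/-- the character of the first coordinate -/
theorem aw_char (p : ℕ) [Fact p.Prime] (g c : ZMod p) (hc : c ≠ 0) (χ : MulChar (ZMod p) ℂ)
    (hχ : ∀ x : ZMod p, x ≠ 0 → ∀ j : ℤ,
      (χ ^ j) x = ex (j * ((ind g x : ℝ) / ((p : ℝ) - 1)))) (i : ℤ) (x : ZMod p) (hx : x ≠ 0) :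
    ex (i * aw p g c x) = (χ ^ i) (x * c⁻¹) := by
  have hxc : x * c⁻¹ ≠ 0 := mul_ne_zero hx (inv_ne_zero hc)
  rw [hχ _ hxc i]
  unfold aw
  rw [div_eq_mul_inv x c]

theorem mem_Xw {F : Type} [Field F] [Fintype F] [DecidableEq F] {e v x : F} (hx : x ∈ Xw e v) :
    x ≠ 0 ∧ x ≠ v ∧ x ≠ e := by
  simpa only [Xw, mem_filter, mem_univ, true_and] using hx

theorem ex_norm (t : ℝ) : ‖ex t‖ = 1 := by
  unfold ex
  have : (2 * (Real.pi : ℂ) * (t : ℂ) * Complex.I) = ((2 * Real.pi * t : ℝ) : ℂ) * Complex.I := by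
    push_cast; ring
  rw [this]
  exact Complex.norm_exp_ofReal_mul_I _

/-- **WAB** -/
theorem t_WAB (hLIM : LIM)
    (hTP : ∀ (F : Type) [Field F] [Fintype F] [DecidableEq F], TP F)
    (hCHM : CHM) : Pool.Agent.Helper74.CO.WAB := by
  intro K κ hκ
  obtain ⟨q₁, hq₁⟩ := hLIM κ hκ
  refine ⟨max q₁ (K + 10), ?_⟩
  intro p _ g c e v hp hg hc he hve j k hj hk hne
  have hcard : Fintype.card (ZMod p) = p := ZMod.card p
  have hpK : K + 10 ≤ p := (le_max_right _ _).trans hp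
  have hlim := hq₁ p ((le_max_left _ _).trans hp)
  have hpz : (K : ℤ) + 10 ≤ p := by exact_mod_cast hpK
  have hp0 : (0 : ℝ) ≤ p := Nat.cast_nonneg _
  have hsq0 : 0 ≤ √(p : ℝ) := Real.sqrt_nonneg _
  obtain ⟨χ, hχ, hχ1⟩ := hCHM (ZMod p) g hg (by rw [hcard]; omega)
  rw [hcard] at hχ hχ1
  have hterm : ∀ x ∈ Xw e v, ex (j * aw p g c x + k * aw p g c (Mw e v x)) =
      ((χ ^ j) c⁻¹ * (χ ^ k) (e * c⁻¹)) *
        ((χ ^ j) x * ((χ ^ k) (x - v) * (χ ^ k)⁻¹ (x - e))) := by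
    intro x hx
    obtain ⟨hx0, hxv, hxe⟩ := mem_Xw hx
    have hxe' : x - e ≠ 0 := sub_ne_zero.mpr hxe
    have hxv' : x - v ≠ 0 := sub_ne_zero.mpr hxv
    have hM : Mw e v x ≠ 0 := by
      unfold Mw
      exact div_ne_zero (mul_ne_zero he hxv') hxe'
    rw [Pool.Agent.Helper40.CO.ex_add, aw_char p g c hc χ hχ j x hx0,
      aw_char p g c hc χ hχ k _ hM]
    have hMv : Mw e v x * c⁻¹ = (e * c⁻¹) * ((x - v) * (x - e)⁻¹) := by
      unfold Mw
      rw [div_eq_mul_inv]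
      ring
    rw [hMv, map_mul (χ ^ j), map_mul (χ ^ k) (e * c⁻¹), map_mul (χ ^ k) (x - v), MulChar.inv_apply']
    ring
  rw [sum_congr rfl hterm]
  have hX5 := card_compl_Xw e v
  have hC : ‖(χ ^ j) c⁻¹ * (χ ^ k) (e * c⁻¹)‖ ≤ 1 :=
    Pool.Agent.Helper40.CO.mul_le_one' (Pool.Agent.Helper40.CO.norm_chi_le _ _)
      (Pool.Agent.Helper40.CO.norm_chi_le _ _)
  have hn : ∀ x, ‖(χ ^ j) x * ((χ ^ k) (x - v) * (χ ^ k)⁻¹ (x - e))‖ ≤ 1 := fun x =>
    Pool.Agent.Helper40.CO.mul_le_one' (Pool.Agent.Helper40.CO.norm_chi_le _ _)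
      (Pool.Agent.Helper40.CO.mul_le_one' (Pool.Agent.Helper40.CO.norm_chi_le _ _)
        (Pool.Agent.Helper40.CO.norm_chi_le _ _))
  by_cases hk0 : k = 0
  · subst hk0
    have hj0 : j ≠ 0 := fun h => hne ⟨h, rfl⟩
    have h1 : ∀ x ∈ Xw e v, ((χ ^ j) c⁻¹ * (χ ^ (0 : ℤ)) (e * c⁻¹)) *
        ((χ ^ j) x * ((χ ^ (0 : ℤ)) (x - v) * (χ ^ (0 : ℤ))⁻¹ (x - e))) =
        ((χ ^ j) c⁻¹ * (χ ^ (0 : ℤ)) (e * c⁻¹)) * (χ ^ j) x := by
      intro x hx
      obtain ⟨hx0, hxv, hxe⟩ := mem_Xw hx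
      rw [Pool.Agent.Helper40.CO.chi_zero χ _ (sub_ne_zero.mpr hxv), zpow_zero, inv_one,
        MulChar.one_apply (isUnit_iff_ne_zero.mpr (sub_ne_zero.mpr hxe))]
      ring
    rw [sum_congr rfl h1]
    have h2 : ∑ x, (χ ^ j) x = 0 :=
      MulChar.sum_eq_zero_of_ne_one (hχ1 j hj0 (by omega))
    refine Pool.Agent.Helper40.CO.incompl' _ hX5 _ hC _
      (Pool.Agent.Helper40.CO.norm_chi_le _) hκ ?_
    rw [h2, norm_zero, hcard]
    exact hlim 0 le_rfl (by rw [zero_pow two_ne_zero]; positivity)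
  · have hχk : χ ^ k ≠ 1 := hχ1 k hk0 (by omega)
    refine Pool.Agent.Helper40.CO.incompl' _ hX5 _ hC _ hn hκ ?_
    rw [hcard]
    refine hlim _ (norm_nonneg _) ?_
    have h := hTP (ZMod p) (χ ^ j) (χ ^ k) v e hχk hve
    rw [hcard] at h
    have h3 : (0 : ℝ) ≤ p * √p := mul_nonneg hp0 hsq0
    nlinarith

/-- **WAC** -/
theorem t_WAC (hLIM : LIM)
    (hGAU : ∀ (F : Type) [Field F] [Fintype F] [DecidableEq F], GAU F)
    (hCHM : CHM) (hCHA : CHA) : Pool.Agent.Helper74.CO.WAC := by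
  intro K κ hκ
  obtain ⟨q₁, hq₁⟩ := hLIM κ hκ
  refine ⟨max q₁ (K + 10), ?_⟩
  intro p _ g c e v hp hg hc he j l hj hl hne
  have hcard : Fintype.card (ZMod p) = p := ZMod.card p
  have hpK : K + 10 ≤ p := (le_max_right _ _).trans hp
  have hlim := hq₁ p ((le_max_left _ _).trans hp)
  have hpz : (K : ℤ) + 10 ≤ p := by exact_mod_cast hpK
  have hp1 : (1 : ℝ) ≤ p := by
    have : 1 ≤ p := by omega
    exact_mod_cast this
  have hsq1 : 1 ≤ √(p : ℝ) := by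
    rw [Real.one_le_sqrt]; exact hp1
  obtain ⟨χ, hχ, hχ1⟩ := hCHM (ZMod p) g hg (by rw [hcard]; omega)
  obtain ⟨ψ, hψ, -, hψ0, hψ1⟩ := hCHA p
  rw [hcard] at hχ hχ1
  have hterm : ∀ x ∈ Xw e v, ex (j * aw p g c x + l * cw p x) =
      (χ ^ j) c⁻¹ * ((χ ^ j) x * ψ l x) := by
    intro x hx
    obtain ⟨hx0, hxv, hxe⟩ := mem_Xw hx
    rw [Pool.Agent.Helper40.CO.ex_add, aw_char p g c hc χ hχ j x hx0, ← hψ, map_mul]
    ring
  rw [sum_congr rfl hterm]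
  have hX5 := card_compl_Xw e v
  have hn : ∀ x, ‖(χ ^ j) x * ψ l x‖ ≤ 1 := fun x => by
    refine Pool.Agent.Helper40.CO.mul_le_one' (Pool.Agent.Helper40.CO.norm_chi_le _ _) ?_
    rw [hψ, ex_norm]
  refine Pool.Agent.Helper40.CO.incompl' _ hX5 _ (Pool.Agent.Helper40.CO.norm_chi_le _ _) _ hn
    hκ ?_
  rw [hcard]
  by_cases hl0 : l = 0
  · subst hl0
    have hj0 : j ≠ 0 := fun h => hne ⟨h, rfl⟩
    have h2 : ∑ x, (χ ^ j) x * ψ 0 x = 0 := by
      rw [hψ0]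
      simp only [AddChar.one_apply, mul_one]
      exact MulChar.sum_eq_zero_of_ne_one (hχ1 j hj0 (by omega))
    rw [h2, norm_zero]
    exact hlim 0 le_rfl (by rw [zero_pow two_ne_zero]; positivity)
  · refine hlim _ (norm_nonneg _) ?_
    have h := hGAU (ZMod p) (χ ^ j) (ψ l) (hψ1 l hl0 (by omega))
    rw [hcard] at h
    have h3 : (p : ℝ) ≤ p * √p := by nlinarith
    nlinarith

end Pool.Agent.Helper83.CO
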